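import Pool.Agent.H315R2.EB.Stubs

set_option autoImplicit false

/-! Task AL (helper218): the faces of the alcove complex. -/

namespace Pool.Agent.H315R2.EB

open Finset

namespace AL

/-- first direction -/
theorem fwd {n : ℕ} {C : Set (Fin (n + 1) → ℝ)} (hC : IsAlcove n C) {v w : Fin (n + 1) → ℝ}
    (hv : v ∈ closure C) (hw : w ∈ closure C) (i j : Fin (n + 1)) :
    (v i - v j) - (w i - w j) ≤ 1 := by
  by_cases hij : i = j
  · subst hij; simp
  obtain ⟨x, hx, rfl⟩ := hC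
  set C := connectedComponentIn (offWalls n) x with hCdef
  let f : (Fin (n + 1) → ℝ) → ℝ := fun y => y i - y j
  have hf : Continuous f := (continuous_apply i).sub (continuous_apply j)
  have hpre : IsPreconnected (f '' C) :=
    isPreconnected_connectedComponentIn.image f hf.continuousOn
  have hord : (f '' C).OrdConnected := hpre.ordConnected
  have hxC : x ∈ C := mem_connectedComponentIn hx
  have hno : ∀ r ∈ f '' C, ∀ k : ℤ, r ≠ k := by
    rintro r ⟨y, hy, rfl⟩ k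
    exact (connectedComponentIn_subset _ _ hy).2 i j hij k
  have hxk1 : (⌊f x⌋ : ℝ) ≤ f x := Int.floor_le _
  have hxk2 : f x < ⌊f x⌋ + 1 := Int.lt_floor_add_one _
  have hin : C ⊆ f ⁻¹' (Set.Icc (⌊f x⌋ : ℝ) (⌊f x⌋ + 1)) := by
    intro y hy
    constructor
    · by_contra h
      push Not at h
      have h1 : ((⌊f x⌋ : ℝ)) ∈ f '' C :=
        hord.out ⟨y, hy, rfl⟩ ⟨x, hxC, rfl⟩ ⟨h.le, hxk1⟩
      exact hno _ h1 ⌊f x⌋ rfl
    · by_contra h
      push Not at h
      have h1 : ((⌊f x⌋ : ℝ) + 1) ∈ f '' C :=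
        hord.out ⟨x, hxC, rfl⟩ ⟨y, hy, rfl⟩ ⟨hxk2.le, h.le⟩
      exact hno _ h1 (⌊f x⌋ + 1) (by push_cast; rfl)
  have hcl : closure C ⊆ f ⁻¹' (Set.Icc (⌊f x⌋ : ℝ) (⌊f x⌋ + 1)) :=
    closure_minimal hin (isClosed_Icc.preimage hf)
  have h1 := (hcl hv).2
  have h2 := (hcl hw).1
  simp only [f] at h1 h2
  linarith

section bwd
variable {n : ℕ} (s : Finset (AlcoveVertex n))

/-- the small number -/
noncomputable def dl : ℝ := 1 / ((n + 1) * (s.card + 1))

/-- the perturbed barycentre -/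
noncomputable def pp (i : Fin (n + 1)) : ℝ :=
  (∑ v ∈ s, v.1 i) / s.card + dl s * ((i : ℕ) - (n : ℝ) / 2)

theorem dl_pos : 0 < dl s := by unfold dl; positivity

theorem pp_sum : ∑ i, pp s i = 0 := by
  unfold pp
  rw [Finset.sum_add_distrib, ← Finset.sum_div, Finset.sum_comm, ← Finset.mul_sum,
    Finset.sum_sub_distrib]
  have h1 : ∑ v ∈ s, ∑ i, v.1 i = 0 := Finset.sum_eq_zero (fun v _ => v.2.1)
  have h2 : ∑ i : Fin (n + 1), ((i : ℕ) : ℝ) = (n : ℝ) * (n + 1) / 2 := by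
    rw [Fin.sum_univ_eq_sum_range (fun i => (i : ℝ)) (n + 1)]
    have := Finset.sum_range_id_mul_two (n + 1)
    have h3 : ((∑ i ∈ Finset.range (n + 1), (i : ℕ)) : ℕ) * 2 = (n + 1) * (n + 1 - 1) := this
    have h4 : ((∑ i ∈ Finset.range (n + 1), (i : ℝ))) * 2 = ((n : ℝ) + 1) * n := by
      have h5 : (((∑ i ∈ Finset.range (n + 1), (i : ℕ)) * 2 : ℕ) : ℝ) =
          (((n + 1) * (n + 1 - 1) : ℕ) : ℝ) := by rw [h3]
      rw [Nat.add_sub_cancel] at h5
      push_cast at h5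
      exact h5
    linarith
  have h3 : ∑ _i : Fin (n + 1), (n : ℝ) / 2 = (n + 1) * (n / 2) := by
    rw [Finset.sum_const, Finset.card_univ, Fintype.card_fin, nsmul_eq_mul]
    push_cast
    ring
  rw [h1, h2, h3]
  ring

theorem pp_sub (i j : Fin (n + 1)) : pp s i - pp s j =
    (∑ v ∈ s, (v.1 i - v.1 j)) / s.card + dl s * ((i : ℕ) - (j : ℕ)) := by
  unfold pp
  rw [Finset.sum_sub_distrib]
  ring

theorem eps_lt (hs : s.Nonempty) (i j : Fin (n + 1)) :
    s.card * |dl s * ((i : ℕ) - (j : ℕ))| < 1 := by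
  have hN : (0:ℝ) < s.card := by exact_mod_cast hs.card_pos
  have h1 : |((i : ℕ) : ℝ) - (j : ℕ)| ≤ n := by
    have hi : ((i : ℕ) : ℝ) ≤ n := by exact_mod_cast Nat.lt_succ_iff.1 i.2
    have hj : ((j : ℕ) : ℝ) ≤ n := by exact_mod_cast Nat.lt_succ_iff.1 j.2
    have hi0 : (0:ℝ) ≤ (i : ℕ) := Nat.cast_nonneg _
    have hj0 : (0:ℝ) ≤ (j : ℕ) := Nat.cast_nonneg _
    rw [abs_le]
    constructor <;> linarith
  rw [abs_mul, abs_of_pos (dl_pos s)]
  have h2 : (s.card : ℝ) * (dl s * |((i : ℕ) : ℝ) - (j : ℕ)|) ≤ s.card * (dl s * n) := by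
    have := dl_pos s
    gcongr
  refine lt_of_le_of_lt h2 ?_
  unfold dl
  have h3 : (s.card : ℝ) * (1 / ((n + 1) * (s.card + 1)) * n) =
      (s.card * n) / ((n + 1) * (s.card + 1)) := by ring
  rw [h3, div_lt_one (by positivity)]
  have h4 : (0:ℝ) ≤ n := Nat.cast_nonneg _
  nlinarith

theorem eps_ne (i j : Fin (n + 1)) (hij : i ≠ j) : dl s * (((i : ℕ) : ℝ) - (j : ℕ)) ≠ 0 := by
  apply mul_ne_zero (dl_pos s).ne'
  rw [sub_ne_zero]
  intro h
  apply hij
  apply Fin.ext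
  exact_mod_cast h

theorem sum_int (i j : Fin (n + 1)) : ∃ M : ℤ, ∑ v ∈ s, (v.1 i - v.1 j) = M := by
  classical
  induction s using Finset.induction_on with
  | empty => exact ⟨0, by simp⟩
  | insert a s ha ih =>
    obtain ⟨M, hM⟩ := ih
    obtain ⟨k, hk⟩ := a.2.2 i j
    exact ⟨k + M, by rw [Finset.sum_insert ha, hM, hk]; push_cast; ring⟩

theorem pp_not_int (hs : s.Nonempty) (i j : Fin (n + 1)) (hij : i ≠ j) (k : ℤ) :
    pp s i - pp s j ≠ k := by
  intro h
  rw [pp_sub] at h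
  obtain ⟨M, hM⟩ := sum_int s i j
  rw [hM] at h
  have hN : (0:ℝ) < s.card := by exact_mod_cast hs.card_pos
  have h1 := eps_lt s hs i j
  have h2 := eps_ne s i j hij
  set ε := dl s * (((i : ℕ) : ℝ) - (j : ℕ)) with hε
  have h3 : (s.card : ℝ) * ε = ((s.card * k - M : ℤ) : ℝ) := by
    push_cast
    rw [← h]
    field_simp
    ring
  have h4 : |((s.card * k - M : ℤ) : ℝ)| < 1 := by
    rw [← h3, abs_mul, abs_of_pos hN]
    exact h1
  have h5 : (s.card * k - M : ℤ) = 0 := by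
    rw [← Int.cast_abs] at h4
    have : |(s.card * k - M : ℤ)| < 1 := by exact_mod_cast h4
    exact Int.abs_lt_one_iff.1 this
  rw [h5, Int.cast_zero] at h3
  rcases mul_eq_zero.1 h3 with h6 | h6
  · exact hN.ne' h6
  · exact h2 h6

theorem pp_near (hs : s.Nonempty)
    (h : ∀ v ∈ s, ∀ w ∈ s, ∀ i j, (v.1 i - v.1 j) - (w.1 i - w.1 j) ≤ 1)
    (v : AlcoveVertex n) (hv : v ∈ s) (i j : Fin (n + 1)) :
    |(pp s i - pp s j) - (v.1 i - v.1 j)| < 1 := by
  classical
  have hN : (0:ℝ) < s.card := by exact_mod_cast hs.card_pos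
  rw [pp_sub]
  have h1 := eps_lt s hs i j
  set ε := dl s * (((i : ℕ) : ℝ) - (j : ℕ)) with hε
  have h2 : |∑ w ∈ s, ((w.1 i - w.1 j) - (v.1 i - v.1 j))| ≤ s.card - 1 := by
    rw [← Finset.add_sum_erase s _ hv, sub_self, zero_add]
    calc |∑ w ∈ s.erase v, ((w.1 i - w.1 j) - (v.1 i - v.1 j))|
        ≤ ∑ w ∈ s.erase v, |(w.1 i - w.1 j) - (v.1 i - v.1 j)| :=
          Finset.abs_sum_le_sum_abs _ _
      _ ≤ ∑ w ∈ s.erase v, (1:ℝ) := by
          refine Finset.sum_le_sum (fun w hw => ?_)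
          have hws := Finset.mem_of_mem_erase hw
          have e1 := h w hws v hv i j
          have e2 := h v hv w hws i j
          rw [abs_le]
          constructor <;> linarith
      _ = s.card - 1 := by
          rw [Finset.sum_const, Finset.card_erase_of_mem hv, nsmul_eq_mul, mul_one,
            Nat.cast_sub hs.card_pos, Nat.cast_one]
  rw [Finset.sum_sub_distrib, Finset.sum_const, nsmul_eq_mul] at h2
  have h3 : (∑ w ∈ s, (w.1 i - w.1 j)) / s.card + ε - (v.1 i - v.1 j) =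
      ((∑ w ∈ s, (w.1 i - w.1 j) - s.card * (v.1 i - v.1 j)) + s.card * ε) / s.card := by
    field_simp
    ring
  rw [h3, abs_div, abs_of_pos hN, div_lt_one hN]
  calc |(∑ w ∈ s, (w.1 i - w.1 j) - s.card * (v.1 i - v.1 j)) + s.card * ε|
      ≤ |∑ w ∈ s, (w.1 i - w.1 j) - s.card * (v.1 i - v.1 j)| + |s.card * ε| := abs_add_le _ _
    _ < (s.card - 1) + 1 := by
        rw [abs_mul, abs_of_pos hN]
        exact add_lt_add_of_le_of_lt h2 h1
    _ = s.card := by ring

theorem pp_mem (hs : s.Nonempty) : pp s ∈ offWalls n :=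
  ⟨pp_sum s, fun i j hij k => pp_not_int s hs i j hij k⟩

theorem seg_mem (hs : s.Nonempty)
    (h : ∀ v ∈ s, ∀ w ∈ s, ∀ i j, (v.1 i - v.1 j) - (w.1 i - w.1 j) ≤ 1)
    (v : AlcoveVertex n) (hv : v ∈ s) (t : ℝ) (ht0 : 0 ≤ t) (ht1 : t < 1) :
    (fun i => (1 - t) * pp s i + t * v.1 i) ∈ offWalls n := by
  refine ⟨?_, ?_⟩
  · rw [Finset.sum_add_distrib, ← Finset.mul_sum, ← Finset.mul_sum, pp_sum, v.2.1]
    ring
  · intro i j hij k hk
    have h1 := pp_near s hs h v hv i j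
    have h2 := fun k => pp_not_int s hs i j hij k
    obtain ⟨m, hm⟩ := v.2.2 i j
    simp only at hk
    have hk' : (1 - t) * (pp s i - pp s j) + t * m = k := by
      rw [← hm, ← hk]; ring
    rw [hm] at h1
    set a := pp s i - pp s j with ha
    have hq1 : (⌊a⌋ : ℝ) ≤ a := Int.floor_le _
    have hq2 : a < ⌊a⌋ + 1 := Int.lt_floor_add_one _
    have hq3 : (⌊a⌋ : ℝ) < a := lt_of_le_of_ne hq1 (h2 ⌊a⌋).symm
    rw [abs_lt] at h1
    have hm1 : ⌊a⌋ ≤ m := by
      have : (⌊a⌋ : ℝ) - 1 < m := by linarith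
      have h5 : ⌊a⌋ - 1 < m := by exact_mod_cast this
      omega
    have hm2 : m ≤ ⌊a⌋ + 1 := by
      have : (m : ℝ) < ⌊a⌋ + 2 := by linarith
      have h5 : m < ⌊a⌋ + 2 := by exact_mod_cast this
      omega
    have hm1' : (⌊a⌋ : ℝ) ≤ m := by exact_mod_cast hm1
    have hm2' : (m : ℝ) ≤ ⌊a⌋ + 1 := by exact_mod_cast hm2
    have h1t : 0 < 1 - t := by linarith
    have hlow : (⌊a⌋ : ℝ) < k := by
      rw [← hk']
      have e1 := mul_lt_mul_of_pos_left hq3 h1t
      have e2 := mul_le_mul_of_nonneg_left hm1' ht0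
      linarith
    have hupp : (k : ℝ) < ⌊a⌋ + 1 := by
      rw [← hk']
      have e1 := mul_lt_mul_of_pos_left hq2 h1t
      have e2 := mul_le_mul_of_nonneg_left hm2' ht0
      linarith
    have e3 : ⌊a⌋ < k := by exact_mod_cast hlow
    have e4 : k < ⌊a⌋ + 1 := by exact_mod_cast hupp
    omega

end bwd

end AL

open AL in
theorem AL_proof : St_AL := by
  intro n s
  constructor
  · rintro ⟨hs, C, hC, hcl⟩
    exact ⟨hs, fun v hv w hw i j => fwd hC (hcl v hv) (hcl w hw) i j⟩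
  · rintro ⟨hs, h⟩
    refine ⟨hs, connectedComponentIn (offWalls n) (pp s), ⟨pp s, pp_mem s hs, rfl⟩, ?_⟩
    intro v hv
    let g : ℝ → (Fin (n + 1) → ℝ) := fun t i => (1 - t) * pp s i + t * v.1 i
    have hg : Continuous g := by
      apply continuous_pi
      intro i
      exact ((continuous_const.sub continuous_id).mul continuous_const).add
        (continuous_id.mul continuous_const)
    have h0 : g 0 = pp s := by
      funext i
      simp [g]
    have h1 : g 1 = v.1 := by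
      funext i
      simp [g]
    have hsub : g '' (Set.Ico 0 1) ⊆ connectedComponentIn (offWalls n) (pp s) := by
      apply IsPreconnected.subset_connectedComponentIn
      · exact isPreconnected_Ico.image g hg.continuousOn
      · exact ⟨0, ⟨le_rfl, one_pos⟩, h0⟩
      · rintro y ⟨t, ht, rfl⟩
        exact seg_mem s hs h v hv t ht.1 ht.2
    have hcl : v.1 ∈ closure (g '' (Set.Ico 0 1)) := by
      apply image_closure_subset_closure_image hg
      rw [closure_Ico (by norm_num)]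
      exact ⟨1, ⟨zero_le_one, le_rfl⟩, h1⟩
    exact closure_mono hsub hcl

end Pool.Agent.H315R2.EB
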